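import Mathlib

namespace Pool.Agent.H.DGame

/-- Infinite binary sequences. -/
def Seq : Type := ℕ → Bool

/-- The metric `d(x,y) = (1/2)^(least n with x n ≠ y n)` for `x ≠ y`, `d(x,x) = 0`
(Mathlib's `PiNat.metricSpace`). -/
noncomputable instance : MetricSpace Seq := PiNat.metricSpace (E := fun _ : ℕ => Bool)

/-- The finite sequence `⟨x 0, …, x (n-1)⟩`. -/
def pre (x : Seq) (n : ℕ) : List Bool := (List.range n).map (fun i => x i)

/-- A subtree of the full binary tree: closed under prefixes, every member has a proper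
extension in it. -/
structure IsSubtree (T : Set (List Bool)) : Prop where
  closed : ∀ s ∈ T, ∀ t : List Bool, t <+: s → t ∈ T
  extend : ∀ s ∈ T, ∃ t ∈ T, s <+: t ∧ s ≠ t

/-- The canopy `[T]`. -/
def canopy (T : Set (List Bool)) : Set Seq := {x | ∀ n, pre x n ∈ T}

/-- A strategy in `T` of the player who moves at the stages `n` with `n % 2 = p`
(`p = 0`: Player I, `p = 1`: Player II): it gives a legal move at each such position. -/
def IsStrategy (T : Set (List Bool)) (p : ℕ) (σ : List Bool → Bool) : Prop :=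
  ∀ s ∈ T, s.length % 2 = p → s ++ [σ s] ∈ T

/-- The play `x` is consistent with the strategy `σ` of the player moving at stages `≡ p`. -/
def Follows (p : ℕ) (σ : List Bool → Bool) (x : Seq) : Prop :=
  ∀ n, n % 2 = p → x n = σ (pre x n)

/-- Player I has a winning strategy in `(T, W)`. -/
def WinsI (T : Set (List Bool)) (W : Set Seq) : Prop :=
  ∃ σ, IsStrategy T 0 σ ∧ ∀ x ∈ canopy T, Follows 0 σ x → x ∈ W

/-- Player II has a winning strategy in `(T, W)`. -/
def WinsII (T : Set (List Bool)) (W : Set Seq) : Prop :=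
  ∃ σ, IsStrategy T 1 σ ∧ ∀ x ∈ canopy T, Follows 1 σ x → x ∉ W

end Pool.Agent.H.DGame
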