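import Mathlib
import Pool.Agent.H.MP_decccb_lc.Defs

namespace Pool.Agent.H.DGame
open Set Metric MeasureTheory Filter Topology
open scoped ENNReal NNReal

noncomputable instance : MeasurableSpace Seq := borel Seq
instance : BorelSpace Seq := ⟨rfl⟩

@[simp] lemma pre_zero (x : Seq) : pre x 0 = [] := by simp [pre]
lemma pre_succ (x : Seq) (n : ℕ) : pre x (n + 1) = pre x n ++ [x n] := by
  simp [pre, List.range_succ]
@[simp] lemma pre_length (x : Seq) (n : ℕ) : (pre x n).length = n := by simp [pre]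

lemma pre_prefix (x : Seq) {m n : ℕ} (h : m ≤ n) : pre x m <+: pre x n := by
  induction h with
  | refl => exact List.prefix_refl _
  | step _ ih => rw [pre_succ]; exact ih.trans (List.prefix_append _ _)

lemma pre_eq_iff {x y : Seq} {n : ℕ} : pre x n = pre y n ↔ ∀ i < n, x i = y i := by
  simp [pre, List.map_inj_left]

/-- cylinder -/
def cyl (s : List Bool) : Set Seq := {x | pre x s.length = s}

lemma mem_cyl_pre (x : Seq) (n : ℕ) : x ∈ cyl (pre x n) := by simp [cyl]

lemma mem_cyl_iff {x : Seq} {s : List Bool} {n : ℕ} (h : s.length ≤ n) :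
    x ∈ cyl s ↔ s <+: pre x n := by
  constructor
  · intro hx
    have : pre x s.length = s := hx
    rw [← this]; exact pre_prefix x (by simpa using h)
  · intro hs
    have h1 : pre x s.length <+: pre x n := pre_prefix x h
    exact (List.prefix_of_prefix_length_le h1 hs (by simp)).eq_of_length (by simp)

lemma cyl_anti {s t : List Bool} (h : s <+: t) : cyl t ⊆ cyl s := by
  intro x hx
  have : pre x t.length = t := hx
  rw [mem_cyl_iff h.length_le, this]; exact h

lemma mem_cyl_snoc {x : Seq} {s : List Bool} {b : Bool} :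
    x ∈ cyl (s ++ [b]) ↔ x ∈ cyl s ∧ x s.length = b := by
  simp only [cyl, mem_setOf_eq, List.length_append, List.length_singleton, pre_succ]
  constructor
  · intro h
    have := List.append_inj h (by simp)
    exact ⟨this.1, by simpa using this.2⟩
  · rintro ⟨h1, h2⟩; rw [h1, h2]

lemma cyl_split (s : List Bool) : cyl s = cyl (s ++ [false]) ∪ cyl (s ++ [true]) := by
  ext x
  simp only [mem_union, mem_cyl_snoc]
  cases x s.length <;> simp

@[simp] lemma cyl_nil : cyl [] = univ := by ext x; simp [cyl]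

lemma cyl_pre_eq (x : Seq) (n : ℕ) :
    cyl (pre x n) = PiNat.cylinder (E := fun _ : ℕ => Bool) x n := by
  ext y
  simp only [cyl, mem_setOf_eq, pre_length, pre_eq_iff]
  exact Iff.rfl

lemma dist_le_iff {x y : Seq} {n : ℕ} : dist y x ≤ (1 / 2 : ℝ) ^ n ↔ y ∈ cyl (pre x n) := by
  rw [cyl_pre_eq]
  exact (PiNat.mem_cylinder_iff_dist_le (E := fun _ : ℕ => Bool)).symm

lemma ediam_cyl (s : List Bool) : ediam (cyl s) ≤ (2⁻¹ : ℝ≥0∞) ^ s.length := by
  refine ediam_le fun x hx y hy => ?_
  have hx' : pre x s.length = s := hx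
  have hy' : pre y s.length = s := hy
  have : dist x y ≤ (1 / 2 : ℝ) ^ s.length := by
    rw [dist_le_iff, hy']; exact hx
  rw [edist_dist]
  calc ENNReal.ofReal (dist x y) ≤ ENNReal.ofReal ((1 / 2 : ℝ) ^ s.length) :=
        ENNReal.ofReal_le_ofReal this
    _ = _ := by
      rw [ENNReal.ofReal_pow (by norm_num), one_div, ENNReal.ofReal_inv_of_pos (by norm_num)]
      simp

lemma le_edist_of_not_mem {x y : Seq} {n : ℕ} (h : y ∉ cyl (pre x (n + 1))) :
    (2⁻¹ : ℝ≥0∞) ^ (n + 1) ≤ edist y x := by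
  rw [← dist_le_iff, not_le] at h
  rw [edist_dist]
  calc (2⁻¹ : ℝ≥0∞) ^ (n + 1) = ENNReal.ofReal ((1 / 2 : ℝ) ^ (n + 1)) := by
        rw [ENNReal.ofReal_pow (by norm_num), one_div, ENNReal.ofReal_inv_of_pos (by norm_num)]
        simp
    _ ≤ _ := ENNReal.ofReal_le_ofReal h.le

lemma isClosed_cyl (s : List Bool) : IsClosed (cyl s) := by
  rcases (cyl s).eq_empty_or_nonempty with h | ⟨x, hx⟩
  · rw [h]; exact isClosed_empty
  · have hx' : pre x s.length = s := hx
    have : cyl s = closedBall x ((1 / 2 : ℝ) ^ s.length) := by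
      ext y; rw [mem_closedBall, dist_le_iff, hx']
    rw [this]; exact isClosed_closedBall

/-- sets defined by a condition on all prefixes are closed -/
lemma isClosed_prefixes (Q : List Bool → Prop) : IsClosed {x : Seq | ∀ n, Q (pre x n)} := by
  rw [← closure_subset_iff_isClosed]
  intro x hx n
  obtain ⟨y, hy, hxy⟩ := Metric.mem_closure_iff.1 hx ((1 / 2 : ℝ) ^ n) (by positivity)
  have : x ∈ cyl (pre y n) := dist_le_iff.1 hxy.le
  have h2 : pre x n = pre y n := by simpa [cyl] using this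
  rw [h2]; exact hy n

lemma mem_of_closed {K : Set Seq} (hK : IsClosed K) {x : Seq}
    (h : ∀ n, (K ∩ cyl (pre x n)).Nonempty) : x ∈ K := by
  rw [← hK.closure_eq, Metric.mem_closure_iff]
  intro ε hε
  obtain ⟨n, hn⟩ := exists_pow_lt_of_lt_one hε (show (1 / 2 : ℝ) < 1 by norm_num)
  obtain ⟨y, hy, hy'⟩ := h n
  exact ⟨y, hy, by rw [dist_comm]; exact (dist_le_iff.2 hy').trans_lt hn⟩

/-- play from `s` on with the move function `μ` -/
lemma exists_play (s : List Bool) (μ : List Bool → Bool) :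
    ∃ x : Seq, x ∈ cyl s ∧ ∀ n, s.length ≤ n → x n = μ (pre x n) := by
  let c : ℕ → List Bool := fun n => Nat.rec [] (fun n l =>
    l ++ [if h : n < s.length then s[n] else μ l]) n
  have hc : ∀ n, c (n + 1) = c n ++ [if h : n < s.length then s[n] else μ (c n)] := fun n => rfl
  let x : Seq := fun n => if h : n < s.length then s[n] else μ (c n)
  have hx : ∀ n, pre x n = c n := by
    intro n; induction n with
    | zero => simp [c]
    | succ n ih => rw [pre_succ, ih, hc]
  refine ⟨x, ?_, fun n hn => ?_⟩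
  · show pre x s.length = s
    apply List.ext_getElem (by simp)
    intro i h1 h2
    simp [pre, x, h2]
  · rw [hx]; simp [x, not_lt.2 hn]

/-- König-type path lemma -/
lemma exists_path (Q : List Bool → Prop) (s : List Bool) (h0 : Q s)
    (hs : ∀ t, s <+: t → Q t → ∃ b, Q (t ++ [b])) :
    ∃ x : Seq, x ∈ cyl s ∧ ∀ n, s.length ≤ n → Q (pre x n) := by
  classical
  obtain ⟨x, hx, hμ⟩ := exists_play s (fun t => if h : ∃ b, Q (t ++ [b]) then h.choose else false)
  refine ⟨x, hx, fun n hn => ?_⟩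
  induction hn with
  | refl => have : pre x s.length = s := hx
            rw [this]; exact h0
  | step hn ih =>
    rename_i m
    have h1 := hs _ ((mem_cyl_iff hn).1 hx) ih
    rw [pre_succ, hμ m hn, dif_pos h1]
    exact h1.choose_spec

lemma tendsto_half : Tendsto (fun n : ℕ => (2⁻¹ : ℝ≥0∞) ^ n) atTop (𝓝 0) :=
  ENNReal.tendsto_pow_atTop_nhds_zero_of_lt_one (by norm_num)

lemma tendsto_half_rpow {d : ℝ} (hd : 0 < d) :
    Tendsto (fun n : ℕ => ((2⁻¹ : ℝ≥0∞) ^ n) ^ d) atTop (𝓝 0) := by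
  have := (ENNReal.continuous_rpow_const (y := d)).tendsto 0
  rw [ENNReal.zero_rpow_of_pos hd] at this
  exact this.comp tendsto_half

/-- covering bound for dimension at most one half -/
lemma dimH_le_half (A : Set Seq) (C : ℕ) (F : ℕ → Finset (List Bool))
    (hc : ∀ n, (F n).card ≤ C * 2 ^ n) (hl : ∀ n, ∀ s ∈ F n, 2 * n ≤ s.length)
    (hA : ∀ n, ∀ x ∈ A, ∃ s ∈ F n, x ∈ cyl s) : dimH A ≤ 1 / 2 := by
  have h := Measure.hausdorffMeasure_le_liminf_sum (ι := fun n => F n) ((1 / 2 : ℝ≥0) : ℝ) A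
    (l := atTop) (fun n : ℕ => (2⁻¹ : ℝ≥0∞) ^ n) tendsto_half (fun n s => cyl s)
    (Eventually.of_forall fun n s => (ediam_cyl _).trans
      (pow_le_pow_right_of_le_one' (by norm_num) (by have := hl n s s.2; omega)))
    (Eventually.of_forall fun n x hx => by
      obtain ⟨s, hs, hx⟩ := hA n x hx
      exact mem_iUnion.2 ⟨⟨s, hs⟩, hx⟩)
  have h2 : ∀ n, ∑ i : F n, ediam (cyl (i : List Bool)) ^ (((1 / 2 : ℝ≥0) : ℝ)) ≤ (C : ℝ≥0∞) := by
    intro n
    calc ∑ i : F n, ediam (cyl (i : List Bool)) ^ (((1 / 2 : ℝ≥0) : ℝ))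
        ≤ ∑ _i : F n, (2⁻¹ : ℝ≥0∞) ^ n := by
          refine Finset.sum_le_sum fun s _ => ?_
          calc ediam (cyl (s : List Bool)) ^ (((1 / 2 : ℝ≥0) : ℝ))
              ≤ (((2⁻¹ : ℝ≥0∞) ^ n) ^ 2) ^ (((1 / 2 : ℝ≥0) : ℝ)) := by
                refine ENNReal.rpow_le_rpow ((ediam_cyl _).trans ?_) (by norm_num)
                rw [← pow_mul]
                exact pow_le_pow_right_of_le_one' (by norm_num) (by have := hl n s s.2; omega)
            _ = _ := by
                rw [← ENNReal.rpow_natCast _ 2, ← ENNReal.rpow_mul]; norm_num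
      _ = (F n).card * (2⁻¹ : ℝ≥0∞) ^ n := by simp
      _ ≤ ((C * 2 ^ n : ℕ) : ℝ≥0∞) * (2⁻¹ : ℝ≥0∞) ^ n := by
          gcongr; exact hc n
      _ = C := by
          push_cast
          rw [mul_assoc, ← mul_pow, ENNReal.mul_inv_cancel (by norm_num) (by norm_num)]; simp
  have h3 : μH[((1 / 2 : ℝ≥0) : ℝ)] A ≤ C :=
    h.trans (liminf_le_of_frequently_le' (Frequently.of_forall h2))
  have h4 := dimH_le_of_hausdorffMeasure_ne_top (s := A) (d := 1 / 2)
    (ne_top_of_le_ne_top (by simp) h3)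
  simpa using h4

open Classical in
/-- positions reachable when at stages `≥ k` of parity `p` the move is `σ` -/
noncomputable def Lset (k p : ℕ) (σ : List Bool → Bool) : ℕ → Finset (List Bool)
  | 0 => {[]}
  | j + 1 => if k ≤ j ∧ j % 2 = p then (Lset k p σ j).image (fun s => s ++ [σ s])
      else (Lset k p σ j).image (fun s => s ++ [false]) ∪ (Lset k p σ j).image (fun s => s ++ [true])

lemma Lset_length (k p σ) : ∀ j, ∀ s ∈ Lset k p σ j, s.length = j
  | 0, s, hs => by simp [Lset] at hs; simp [hs]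
  | j + 1, s, hs => by
    unfold Lset at hs
    split_ifs at hs
    · obtain ⟨t, ht, rfl⟩ := Finset.mem_image.1 hs
      simp [Lset_length k p σ j t ht]
    · rcases Finset.mem_union.1 hs with hs | hs <;>
      · obtain ⟨t, ht, rfl⟩ := Finset.mem_image.1 hs
        simp [Lset_length k p σ j t ht]

lemma Lset_card_succ (k p σ j) : (Lset k p σ (j + 1)).card ≤ 2 * (Lset k p σ j).card := by
  rw [Lset]
  split_ifs
  · exact Finset.card_image_le.trans (by omega)
  · refine (Finset.card_union_le _ _).trans ?_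
    have h1 := Finset.card_image_le (s := Lset k p σ j) (f := fun s => s ++ [false])
    have h2 := Finset.card_image_le (s := Lset k p σ j) (f := fun s => s ++ [true])
    omega

lemma Lset_card_succ' (k p σ j) (h : k ≤ j ∧ j % 2 = p) :
    (Lset k p σ (j + 1)).card ≤ (Lset k p σ j).card := by
  rw [Lset, if_pos h]
  exact Finset.card_image_le

lemma Lset_card_le (k p σ) : ∀ j, (Lset k p σ j).card ≤ 2 ^ j
  | 0 => by simp [Lset]
  | j + 1 => (Lset_card_succ k p σ j).trans (by have := Lset_card_le k p σ j; rw [pow_succ]; omega)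

lemma Lset_card_le' (k p σ) (hp : p < 2) : ∀ n, (Lset k p σ (k + 2 * n)).card ≤ 2 ^ k * 2 ^ n
  | 0 => by simpa using Lset_card_le k p σ k
  | n + 1 => by
    have ih := Lset_card_le' k p σ hp n
    have e : k + 2 * (n + 1) = k + 2 * n + 1 + 1 := by ring
    rw [e, pow_succ, ← mul_assoc]
    by_cases h : (k + 2 * n) % 2 = p
    · have h1 := Lset_card_succ' k p σ (k + 2 * n) ⟨by omega, h⟩
      have h2 := Lset_card_succ k p σ (k + 2 * n + 1)
      omega
    · have h1 := Lset_card_succ' k p σ (k + 2 * n + 1) ⟨by omega, by omega⟩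
      have h2 := Lset_card_succ k p σ (k + 2 * n)
      omega

/-- plays following `σ` from stage `k` on -/
def Fol (k p : ℕ) (σ : List Bool → Bool) : Set Seq :=
  {x | ∀ n, k ≤ n → n % 2 = p → x n = σ (pre x n)}

lemma pre_mem_Lset {k p σ} {x : Seq} (hx : x ∈ Fol k p σ) : ∀ j, pre x j ∈ Lset k p σ j
  | 0 => by simp [Lset]
  | j + 1 => by
    have ih := pre_mem_Lset hx j
    rw [Lset, pre_succ]
    split_ifs with h
    · exact Finset.mem_image.2 ⟨_, ih, by rw [hx j h.1 h.2]⟩
    · cases x j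
      · exact Finset.mem_union_left _ (Finset.mem_image.2 ⟨_, ih, rfl⟩)
      · exact Finset.mem_union_right _ (Finset.mem_image.2 ⟨_, ih, rfl⟩)

lemma dimH_Fol (k p σ) (hp : p < 2) : dimH (Fol k p σ) ≤ 1 / 2 :=
  dimH_le_half _ (2 ^ k) (fun n => Lset k p σ (k + 2 * n)) (Lset_card_le' k p σ hp)
    (fun n s hs => by rw [Lset_length _ _ _ _ s hs]; omega)
    (fun n x hx => ⟨_, pre_mem_Lset hx _, mem_cyl_pre _ _⟩)

/-- all lists of length `n` -/
noncomputable def allL (n : ℕ) : Finset (List Bool) := Lset n 0 (fun _ => false) n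

lemma allL_card (n : ℕ) : (allL n).card ≤ 2 ^ n := Lset_card_le _ _ _ _

lemma mem_allL {n : ℕ} {s : List Bool} : s ∈ allL n ↔ s.length = n := by
  refine ⟨Lset_length _ _ _ _ _, fun h => ?_⟩
  obtain ⟨x, hx, hμ⟩ := exists_play s (fun _ => false)
  have hx' : pre x s.length = s := hx
  rw [← hx', h]
  exact pre_mem_Lset (fun m hm _ => hμ m (h ▸ hm)) n

end Pool.Agent.H.DGame
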