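import Mathlib
import Pool.Agent.H.MP_decccb_lc.A

namespace Pool.Agent.H.DGame
open Set Metric MeasureTheory Filter Topology
open scoped ENNReal NNReal

/-- approximating outer measures -/
noncomputable def psi (d : ℝ) (r : ℝ≥0∞) : OuterMeasure Seq :=
  OuterMeasure.mkMetric'.pre (fun s => ediam s ^ d) r

lemma haus_eq (d : ℝ) (A : Set Seq) : μH[d] A = ⨆ r > 0, psi d r A := by
  have : (μH[d] : Measure Seq) A = (OuterMeasure.mkMetric (fun r => r ^ d) : OuterMeasure Seq) A := by
    rw [Measure.hausdorffMeasure, OuterMeasure.coe_mkMetric]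
  rw [this, OuterMeasure.mkMetric, OuterMeasure.mkMetric']
  simp only [OuterMeasure.iSup_apply, psi]

lemma psi_le_phi {d : ℝ} (hd : 0 < d) {r : ℝ≥0∞} {s : List Bool}
    (hr : (2⁻¹ : ℝ≥0∞) ^ s.length ≤ r) {A : Set Seq} (hA : A ⊆ cyl s) :
    psi d r A ≤ psi d ⊤ A := by
  have h : OuterMeasure.restrict (cyl s) (psi d r) ≤ psi d ⊤ := by
    refine OuterMeasure.mkMetric'.le_pre.2 fun t _ => ?_
    rw [OuterMeasure.restrict_apply]
    refine (OuterMeasure.mkMetric'.pre_le
      ((ediam_mono inter_subset_right).trans ((ediam_cyl s).trans hr))).trans ?_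
    exact ENNReal.rpow_le_rpow (ediam_mono inter_subset_left) hd.le
  have := h A
  rwa [OuterMeasure.restrict_apply, inter_eq_left.2 hA] at this

lemma phi_le {d : ℝ} (hd : 0 < d) {s : List Bool} {A : Set Seq} (hA : A ⊆ cyl s) :
    psi d ⊤ A ≤ ((2⁻¹ : ℝ≥0∞) ^ s.length) ^ d :=
  (OuterMeasure.mkMetric'.pre_le le_top).trans
    (ENNReal.rpow_le_rpow ((ediam_mono hA).trans (ediam_cyl s)) hd.le)

lemma exists_half_le {r : ℝ≥0∞} (hr : 0 < r) : ∃ n : ℕ, (2⁻¹ : ℝ≥0∞) ^ n ≤ r :=
  (tendsto_half.eventually (ge_mem_nhds hr)).exists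

lemma phi_pos {d : ℝ} (hd : 0 < d) {K : Set Seq} (hK : μH[d] K ≠ 0) : psi d ⊤ K ≠ 0 := by
  intro h0
  apply hK
  rw [haus_eq]
  simp only [ENNReal.iSup_eq_zero]
  intro r hr
  obtain ⟨n, hn⟩ := exists_half_le hr
  have : K ⊆ ⋃ s : allL n, K ∩ cyl s := fun x hx =>
    mem_iUnion.2 ⟨⟨pre x n, mem_allL.2 (by simp)⟩, hx, mem_cyl_pre _ _⟩
  refine le_antisymm ((measure_mono this).trans ((measure_iUnion_le _).trans (le_of_eq ?_))) bot_le
  simp only [ENNReal.tsum_eq_zero]
  intro s
  refine le_antisymm ((psi_le_phi hd (by rw [mem_allL.1 s.2]; exact hn)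
    inter_subset_right).trans ?_) bot_le
  exact (measure_mono inter_subset_left).trans h0.le

/-- greedy flow, on reversed lists -/
noncomputable def flowR (φ : List Bool → ℝ≥0∞) : List Bool → ℝ≥0∞
  | [] => φ []
  | false :: w => min (flowR φ w) (φ (w.reverse ++ [false]))
  | true :: w => flowR φ w - min (flowR φ w) (φ (w.reverse ++ [false]))

noncomputable def flow (φ : List Bool → ℝ≥0∞) (s : List Bool) : ℝ≥0∞ := flowR φ s.reverse

lemma flow_nil (φ) : flow φ [] = φ [] := rfl
lemma flow_false (φ s) : flow φ (s ++ [false]) = min (flow φ s) (φ (s ++ [false])) := by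
  simp [flow, flowR]
lemma flow_true (φ s) :
    flow φ (s ++ [true]) = flow φ s - min (flow φ s) (φ (s ++ [false])) := by
  simp [flow, flowR]
lemma flow_add (φ s) : flow φ s = flow φ (s ++ [false]) + flow φ (s ++ [true]) := by
  rw [flow_false, flow_true, add_tsub_cancel_of_le (min_le_left _ _)]

lemma flow_le {φ : List Bool → ℝ≥0∞} (hφ : ∀ s, φ s ≤ φ (s ++ [false]) + φ (s ++ [true])) (s) :
    flow φ s ≤ φ s := by
  induction s using List.reverseRecOn with
  | nil => exact le_rfl
  | append_singleton s b ih =>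
    cases b
    · rw [flow_false]; exact min_le_right _ _
    · rw [flow_true]
      rcases le_total (flow φ s) (φ (s ++ [false])) with h | h
      · rw [min_eq_left h]; simp
      · rw [min_eq_right h, tsub_le_iff_left]; exact ih.trans (hφ s)

lemma flow_sat (φ s) : flow φ (s ++ [false]) = φ (s ++ [false]) ∨ flow φ (s ++ [true]) = 0 := by
  rw [flow_false, flow_true]
  rcases le_total (flow φ s) (φ (s ++ [false])) with h | h
  · right; rw [min_eq_left h]; simp
  · left; exact min_eq_right h

/-- covering lemma for an additive weight -/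
lemma weight_cover (m : List Bool → ℝ≥0∞) (hm : ∀ s, m s = m (s ++ [false]) + m (s ++ [true]))
    (c : ℕ → List Bool) (hc : ∀ x : Seq, (∀ n, m (pre x n) ≠ 0) → ∃ i, x ∈ cyl (c i)) :
    m [] ≤ ∑' i, m (c i) := by
  classical
  by_contra hlt
  rw [not_le] at hlt
  let g : List Bool → ℝ≥0∞ := fun s => ∑' i, if s <+: c i then m (c i) else 0
  have h0 : g [] < m [] := by simpa [g] using hlt
  have hs : ∀ t, [] <+: t → g t < m t → ∃ b, g (t ++ [b]) < m (t ++ [b]) := by
    intro t _ ht
    by_contra hn
    push Not at hn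
    have : g (t ++ [false]) + g (t ++ [true]) ≤ g t := by
      simp only [g, ← ENNReal.tsum_add]
      refine ENNReal.tsum_le_tsum fun i => ?_
      by_cases h1 : t ++ [false] <+: c i
      · have h2 : ¬ t ++ [true] <+: c i := fun h2 => by
          have := (List.prefix_of_prefix_length_le h1 h2 (by simp)).eq_of_length (by simp)
          simp at this
        simp [h1, h2, (List.prefix_append t [false]).trans h1]
      · by_cases h2 : t ++ [true] <+: c i
        · simp [h1, h2, (List.prefix_append t [true]).trans h2]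
        · simp [h1, h2]
    have h3 := add_le_add (hn false) (hn true)
    rw [← hm] at h3
    exact absurd (h3.trans this) (not_le.2 ht)
  obtain ⟨x, -, hx⟩ := exists_path (fun s => g s < m s) [] h0 hs
  obtain ⟨i, hi⟩ := hc x fun n => (lt_of_le_of_lt bot_le (hx n (by simp))).ne'
  have hi' : pre x (c i).length = c i := hi
  have h4 := hx (c i).length (by simp)
  rw [hi'] at h4
  have : m (c i) ≤ g (c i) := by
    have := ENNReal.le_tsum (f := fun j => if c i <+: c j then m (c j) else 0) i
    simpa [g] using this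
  exact absurd h4 (not_lt.2 this)

/-- mass distribution -/
lemma mass_lower {d : ℝ} (hd : 0 < d) (m : List Bool → ℝ≥0∞)
    (hm : ∀ s, m s = m (s ++ [false]) + m (s ++ [true]))
    (hle : ∀ s, m s ≤ ((2⁻¹ : ℝ≥0∞) ^ s.length) ^ d) (h0 : m [] ≠ 0) :
    μH[d] {x : Seq | ∀ n, m (pre x n) ≠ 0} ≠ 0 := by
  intro hz
  rw [Measure.hausdorffMeasure_apply] at hz
  simp only [ENNReal.iSup_eq_zero] at hz
  have hz1 := hz 1 one_pos
  -- small sets are in cylinders of small weight
  have key : ∀ (A : Set Seq) (ε : ℝ≥0∞), 0 < ε → ∃ s, A ⊆ cyl s ∧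
      m s ≤ 2 ^ d * (⨆ _ : A.Nonempty, ediam A ^ d) + ε := by
    intro A ε hε
    obtain ⟨N, hN⟩ := ((tendsto_half_rpow hd).eventually (ge_mem_nhds hε)).exists
    rcases A.eq_empty_or_nonempty with rfl | ⟨x, hx⟩
    · exact ⟨List.replicate N false, empty_subset _, (hle _).trans (by simpa using hN)⟩
    · by_cases h : ∃ n, ¬ A ⊆ cyl (pre x (n + 1))
      · classical
        refine ⟨pre x (Nat.find h), ?_, ?_⟩
        · rcases hk : Nat.find h with _ | k
          · simp
          · have := Nat.find_min h (m := k) (by omega)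
            simpa using this
        · obtain ⟨y, hy, hy'⟩ := not_subset.1 (Nat.find_spec h)
          have h1 := (le_edist_of_not_mem hy').trans (edist_le_ediam_of_mem hy hx)
          refine (hle _).trans (le_add_right ?_)
          rw [iSup_pos ⟨x, hx⟩, ← ENNReal.mul_rpow_of_nonneg _ _ hd.le, pre_length]
          refine ENNReal.rpow_le_rpow ?_ hd.le
          calc (2⁻¹ : ℝ≥0∞) ^ Nat.find h = 2 * (2⁻¹ : ℝ≥0∞) ^ (Nat.find h + 1) := by
                rw [pow_succ', ← mul_assoc, ENNReal.mul_inv_cancel (by norm_num) (by norm_num),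
                  one_mul]
            _ ≤ _ := by gcongr
      · push Not at h
        refine ⟨pre x N, (h N).trans (cyl_anti (pre_prefix x (by omega))), ?_⟩
        exact (hle _).trans (le_add_left (by simpa using hN))
  have h2d : (2 : ℝ≥0∞) ^ d ≠ ⊤ := ENNReal.rpow_ne_top_of_nonneg hd.le (by norm_num)
  have h2d0 : (2 : ℝ≥0∞) ^ d ≠ 0 := by simp
  have hfin : ∀ η : ℝ≥0∞, 0 < η → m [] ≤ 2 ^ d * η + η := by
    intro η hη
    have hlt := hz1.trans_lt hη
    simp only [iInf_lt_iff] at hlt
    obtain ⟨t, ht, -, hsum⟩ := hlt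
    obtain ⟨ε, hε, hεs⟩ := ENNReal.exists_pos_sum_of_countable hη.ne' ℕ
    choose c hc hc' using fun i => key (t i) (ε i) (by exact_mod_cast hε i)
    refine (weight_cover m hm c fun x hx => ?_).trans ?_
    · obtain ⟨i, hi⟩ := mem_iUnion.1 (ht hx)
      exact ⟨i, hc i hi⟩
    · refine (ENNReal.tsum_le_tsum hc').trans ?_
      rw [ENNReal.tsum_add, ENNReal.tsum_mul_left]
      gcongr
  apply h0
  have ht : Tendsto (fun η : ℝ≥0∞ => 2 ^ d * η + η) (𝓝[>] 0) (𝓝 0) := by
    have h1 : Tendsto (fun η : ℝ≥0∞ => 2 ^ d * η + η) (𝓝 0) (𝓝 (2 ^ d * 0 + 0)) :=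
      (ENNReal.Tendsto.const_mul tendsto_id (Or.inr h2d)).add tendsto_id
    simp only [mul_zero, add_zero] at h1
    exact h1.mono_left nhdsWithin_le_nhds
  exact le_antisymm (ge_of_tendsto ht (eventually_nhdsWithin_of_forall hfin)) bot_le

/-- Besicovitch: a closed set of positive measure has a closed subset of positive finite measure -/
theorem besicovitch {d : ℝ} (hd : 0 < d) {K : Set Seq} (hK : IsClosed K) (h0 : μH[d] K ≠ 0) :
    ∃ E ⊆ K, IsClosed E ∧ μH[d] E ≠ 0 ∧ μH[d] E ≠ ⊤ := by
  let φ : List Bool → ℝ≥0∞ := fun s => psi d ⊤ (K ∩ cyl s)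
  have hφ : ∀ s, φ s ≤ φ (s ++ [false]) + φ (s ++ [true]) := by
    intro s
    simp only [φ]
    rw [cyl_split s, inter_union_distrib_left]
    exact measure_union_le _ _
  have hφle : ∀ s, φ s ≤ ((2⁻¹ : ℝ≥0∞) ^ s.length) ^ d := fun s => phi_le hd inter_subset_right
  let m := flow φ
  have hmle : ∀ s, m s ≤ φ s := flow_le hφ
  let E : Set Seq := {x | ∀ n, m (pre x n) ≠ 0}
  have hEK : E ⊆ K := by
    intro x hx
    refine mem_of_closed hK fun n => ?_
    by_contra hne
    rw [not_nonempty_iff_eq_empty] at hne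
    apply hx n
    refine le_antisymm ((hmle _).trans ?_) bot_le
    simp [φ, hne]
  refine ⟨E, hEK, isClosed_prefixes (fun s => m s ≠ 0), ?_, ?_⟩
  · refine mass_lower hd m (flow_add φ) (fun s => (hmle s).trans (hφle s)) ?_
    simpa [m, flow_nil, φ] using phi_pos hd h0
  · have hb : μH[d] E ≤ m [] := by
      rw [haus_eq]
      refine iSup₂_le fun r hr => ?_
      obtain ⟨N, hN⟩ := exists_half_le hr
      have hsub : ∀ s, psi d r (E ∩ cyl s) ≤
          psi d r (E ∩ cyl (s ++ [false])) + psi d r (E ∩ cyl (s ++ [true])) := by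
        intro s
        rw [cyl_split s, inter_union_distrib_left]
        exact measure_union_le _ _
      have hpp : ∀ s : List Bool, N ≤ s.length → psi d r (E ∩ cyl s) ≤ φ s := fun s hs =>
        (psi_le_phi hd ((pow_le_pow_right_of_le_one' (by norm_num) hs).trans hN)
          inter_subset_right).trans (measure_mono (inter_subset_inter_left _ hEK))
      have hdeep : ∀ s : List Bool, N ≤ s.length → psi d r (E ∩ cyl s) ≤ m s := by
        intro s hs
        refine ENNReal.le_of_forall_pos_le_add fun ε hε _ => ?_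
        by_contra hlt
        rw [not_le] at hlt
        obtain ⟨x, -, hx⟩ := exists_path (fun t => m t + ε < psi d r (E ∩ cyl t)) s hlt (by
          intro t hst ht
          by_contra hn
          push Not at hn
          have hlen : N ≤ t.length := hs.trans hst.length_le
          refine absurd (ht.trans_le (hsub t)) (not_lt.2 ?_)
          rw [show m t = m (t ++ [false]) + m (t ++ [true]) from flow_add φ t]
          rcases flow_sat φ t with h | h
          · have h1 : psi d r (E ∩ cyl (t ++ [false])) ≤ m (t ++ [false]) :=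
              (hpp _ (by simp; omega)).trans h.ge
            rw [add_assoc]
            exact add_le_add h1 (hn true)
          · have h1 : E ∩ cyl (t ++ [true]) = ∅ := by
              refine eq_empty_of_forall_notMem fun y hy => hy.1 (t ++ [true]).length ?_
              have : pre y (t ++ [true]).length = t ++ [true] := hy.2
              rw [this]; exact h
            rw [h1, measure_empty, add_zero, add_right_comm]
            exact le_add_right (hn false))
        have hε' : (0 : ℝ≥0∞) < ε := by exact_mod_cast hε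
        obtain ⟨n, hn1, hn2⟩ := (((tendsto_half_rpow hd).eventually (ge_mem_nhds hε')).and
          (eventually_ge_atTop s.length)).exists
        have h5 := (hx n hn2).trans_le ((hpp _ (by simp; omega)).trans (hφle _))
        rw [pre_length] at h5
        exact absurd (h5.trans_le hn1) (not_lt.2 le_add_self)
      have hall : ∀ k, ∀ s : List Bool, N ≤ s.length + k → psi d r (E ∩ cyl s) ≤ m s := by
        intro k
        induction k with
        | zero => exact hdeep
        | succ k ih =>
          intro s hs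
          rw [show m s = m (s ++ [false]) + m (s ++ [true]) from flow_add φ s]
          exact (hsub s).trans (add_le_add (ih _ (by simp; omega)) (ih _ (by simp; omega)))
      simpa using hall N [] (by simp)
    refine ne_top_of_le_ne_top ?_ (hb.trans ((hmle _).trans (hφle _)))
    simp

/-- a subset of prescribed dimension avoiding a small set -/
theorem exact_dim {K Z : Set Seq} (hK : IsClosed K) (hZ : dimH Z ≤ 1 / 2) (hd : 1 / 2 < dimH K)
    {δ : ℝ≥0∞} (h1 : 1 / 2 ≤ δ) (h2 : δ ≤ dimH K) : ∃ E ⊆ K \ Z, dimH E = δ := by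
  rcases h2.eq_or_lt with rfl | h2
  · refine ⟨K \ Z, subset_rfl, le_antisymm (dimH_mono diff_subset) ?_⟩
    have : dimH K ≤ max (dimH (K \ Z)) (dimH Z) := by
      rw [← dimH_union]; exact dimH_mono (subset_diff_union _ _)
    rcases le_max_iff.1 this with h | h
    · exact h
    · exact absurd (hd.trans_le (h.trans hZ)) (lt_irrefl _)
  · obtain ⟨s, hs1, hs2⟩ := ENNReal.lt_iff_exists_nnreal_btwn.1 h2
    lift δ to ℝ≥0 using (hs1.trans ENNReal.coe_lt_top).ne
    have hδ : (0 : ℝ≥0∞) < δ := lt_of_lt_of_le (by norm_num) h1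
    have hδ' : (0 : ℝ) < δ := by exact_mod_cast hδ
    have hs0 : (0 : ℝ) < s := by exact_mod_cast hδ.trans hs1
    obtain ⟨E, hEK, hE, hE0, hEt⟩ := besicovitch hs0 hK
      (by rw [hausdorffMeasure_of_lt_dimH hs2]; simp)
    have hZ0 : μH[s] Z = 0 := hausdorffMeasure_of_dimH_lt (hZ.trans_lt (h1.trans_lt hs1))
    obtain ⟨Z', hZZ, hZm, hZ'0⟩ := exists_measurable_superset_of_null hZ0
    let μ : Measure Seq := (μH[s]).restrict E
    haveI : IsFiniteMeasure μ := isFiniteMeasure_restrict.2 hEt
    have hm : MeasurableSet (E \ Z') := hE.measurableSet.diff hZm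
    have hpos : 0 < μ (E \ Z') := by
      rw [Measure.restrict_apply hm, inter_eq_left.2 diff_subset, measure_diff_null hZ'0]
      exact pos_iff_ne_zero.2 hE0
    obtain ⟨F, hF, hFc, hF0⟩ := hm.exists_lt_isClosed_of_ne_top (measure_ne_top μ _) hpos
    have hF1 : μH[s] F ≠ 0 := (hF0.trans_le (Measure.restrict_apply_le _ _)).ne'
    have hF2 : (δ : ℝ≥0∞) < dimH F := hs1.trans_le (le_dimH_of_hausdorffMeasure_ne_zero hF1)
    obtain ⟨G, hGF, -, hG0, hGt⟩ := besicovitch hδ' hFc
      (by rw [hausdorffMeasure_of_lt_dimH hF2]; simp)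
    exact ⟨G, fun x hx => ⟨hEK (hF (hGF hx)).1, fun hz => (hF (hGF hx)).2 (hZZ hz)⟩,
      dimH_of_hausdorffMeasure_ne_zero_ne_top hG0 hGt⟩

end Pool.Agent.H.DGame
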