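import Mathlib
import Pool.Agent.H.MP_decccb_lc.B

namespace Pool.Agent.H.DGame
open Set Metric MeasureTheory Filter Topology Cardinal
open scoped ENNReal NNReal

lemma exists_inj_choice {J α : Type} (P : J → Set α) (h : ∀ j, #J ≤ #(P j)) :
    ∃ f : J → α, Function.Injective f ∧ ∀ j, f j ∈ P j := by
  classical
  obtain ⟨r, wo, hr⟩ := Cardinal.exists_ord_eq J
  have key : ∀ j (g : ∀ i, r i j → α), ∃ a ∈ P j, ∀ i (hi : r i j), g i hi ≠ a := by
    intro j g
    by_contra hn
    push Not at hn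
    have h1 : P j ⊆ range (fun i : {y // r y j} => g i.1 i.2) := fun a ha => by
      obtain ⟨i, hi, e⟩ := hn a ha
      exact ⟨⟨i, hi⟩, e⟩
    have h2 := (mk_le_mk_of_subset h1).trans mk_range_le
    have h3 := Cardinal.card_typein_lt j hr
    rw [Ordinal.card_typein] at h3
    exact absurd ((h j).trans h2) (not_le.2 h3)
  choose F hF hF' using key
  let f : J → α := wo.wf.fix F
  have hf : ∀ j, f j = F j (fun i _ => f i) := fun j => wo.wf.fix_eq F j
  refine ⟨f, fun i j hij => ?_, fun j => by rw [hf]; exact hF _ _⟩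
  rcases trichotomous_of r i j with h | h | h
  · exact absurd (hij.trans (hf j)) (hF' j (fun i _ => f i) i h)
  · exact h
  · exact absurd (hij.symm.trans (hf i)) (hF' i (fun i _ => f i) j h)

lemma exists_bernstein {ι α : Type} (P : ι → Set α) (hι : #ι ≤ 𝔠) :
    ∃ B : Set α, ∀ i, 𝔠 ≤ #(P i) → (∃ x ∈ P i, x ∈ B) ∧ ∃ x ∈ P i, x ∉ B := by
  obtain ⟨f, hf, hP⟩ := exists_inj_choice (J := {i // 𝔠 ≤ #(P i)} × Bool) (fun j => P j.1.1)
    (fun j => by
      refine le_trans ?_ j.1.2
      simp only [mk_prod, lift_id, mk_fintype, Fintype.card_bool]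
      refine (mul_le_mul' ((mk_subtype_le _).trans hι) (le_refl _)).trans ?_
      exact (mul_eq_left aleph0_le_continuum ((nat_lt_aleph0 2).le.trans aleph0_le_continuum)
        (by simp)).le)
  refine ⟨range (fun i => f (i, true)), fun i hi => ⟨⟨_, hP (⟨i, hi⟩, true), ⟨_, rfl⟩⟩,
    ⟨_, hP (⟨i, hi⟩, false), ?_⟩⟩⟩
  rintro ⟨j, hj⟩
  simpa using hf hj

/-- binary scheme -/
lemma exists_scheme (Q : List Bool → Prop) (R : ℕ → List Bool → Prop) (s0 : List Bool)
    (h0 : Q s0)
    (hs : ∀ k s, Q s → ∃ t, s <+: t ∧ R k t ∧ Q (t ++ [false]) ∧ Q (t ++ [true])) :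
    ∃ e : List Bool → List Bool,
      (∀ w, R w.length (e w) ∧ Q (e w ++ [false]) ∧ Q (e w ++ [true])) ∧
      ∀ w b, e w ++ [b] <+: e (b :: w) := by
  choose! g hg using hs
  let e : List Bool → List Bool := fun w =>
    List.rec (g 0 s0) (fun b w t => g (w.length + 1) (t ++ [b])) w
  have he : ∀ b w, e (b :: w) = g (w.length + 1) (e w ++ [b]) := fun _ _ => rfl
  have h1 : ∀ w, R w.length (e w) ∧ Q (e w ++ [false]) ∧ Q (e w ++ [true]) := by
    intro w
    induction w with
    | nil => exact (hg 0 s0 h0).2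
    | cons b w ih =>
      rw [he]
      exact (hg _ _ (by cases b; exacts [ih.2.1, ih.2.2])).2
  refine ⟨e, h1, fun w b => ?_⟩
  rw [he]
  exact (hg _ _ (by cases b; exacts [(h1 w).2.1, (h1 w).2.2])).1

section scheme
variable {e : List Bool → List Bool} (he : ∀ w b, e w ++ [b] <+: e (b :: w))
include he

lemma sch_mono (v w : List Bool) : e w <+: e (v ++ w) := by
  induction v with
  | nil => exact List.prefix_refl _
  | cons b v ih => exact ih.trans ((List.prefix_append _ _).trans (he _ b))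

lemma sch_len (w : List Bool) : w.length ≤ (e w).length := by
  induction w with
  | nil => simp
  | cons b w ih => have := (he w b).length_le; simp at this ⊢; omega

lemma sch_lim (y : ℕ → Bool) : ∃ x : Seq, ∀ n, x ∈ cyl (e (PiNat.res y n)) := by
  have hm : ∀ m n, m ≤ n → e (PiNat.res y m) <+: e (PiNat.res y n) := by
    intro m n h
    induction h with
    | refl => exact List.prefix_refl _
    | step _ ih => exact ih.trans ((List.prefix_append _ _).trans (he _ _))
  have hl : ∀ n, n ≤ (e (PiNat.res y n)).length := fun n => by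
    simpa using sch_len he (PiNat.res y n)
  refine ⟨fun i => (e (PiNat.res y (i + 1)))[i]'(hl _), fun n => ?_⟩
  show pre _ _ = _
  apply List.ext_getElem (by simp)
  intro i h1 h2
  simp only [pre, List.getElem_map, List.getElem_range]
  rcases le_total (i + 1) n with h | h
  · exact (hm _ _ h).getElem _
  · exact ((hm _ _ h).getElem _).symm

lemma sch_card {P : Set Seq} (hP : ∀ x : Seq, (∀ n, ∃ w, w.length = n ∧ x ∈ cyl (e w)) → x ∈ P) :
    𝔠 ≤ #P := by
  choose f hf using sch_lim he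
  have hinj : Function.Injective f := by
    intro y y' h
    apply PiNat.res_injective
    funext n
    induction n with
    | zero => rfl
    | succ n ih =>
      have h1 := cyl_anti (he _ _) (hf y (n + 1))
      have h2 := cyl_anti (he _ _) (hf y' (n + 1))
      rw [← ih, ← h] at h2
      rw [mem_cyl_snoc] at h1 h2
      rw [PiNat.res_succ, PiNat.res_succ, ih, ← h1.2, ← h2.2]
  have : #(ℕ → Bool) ≤ #P :=
    mk_le_of_injective (f := fun y => (⟨f y, hP _ fun n => ⟨_, by simp, hf y n⟩⟩ : P))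
      fun y y' h => hinj (congrArg Subtype.val h)
  simpa using this

lemma sch_pass (n : ℕ) : ∃ M, ∀ s w', s <+: e w' → M ≤ s.length → ∃ w, w.length = n ∧ e w <+: s := by
  refine ⟨(allL n).sup fun w => (e w).length, fun s w' hs hM => ?_⟩
  let v := List.replicate n false ++ w'
  have hv : n ≤ v.length := by simp [v]
  have h1 : s <+: e v := hs.trans (sch_mono he _ _)
  have hw : (v.drop (v.length - n)).length = n := by simp only [List.length_drop]; omega
  refine ⟨v.drop (v.length - n), hw, ?_⟩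
  have h2 : e (v.drop (v.length - n)) <+: e v := by
    conv_rhs => rw [← List.take_append_drop (v.length - n) v]
    exact sch_mono he _ _
  refine List.prefix_of_prefix_length_le h2 h1 (le_trans ?_ hM)
  exact Finset.le_sup (f := fun w => (e w).length) (mem_allL.2 hw)

end scheme

/-- big nodes -/
def Big (K : Set Seq) (s : List Bool) : Prop := 1 / 2 < dimH (K ∩ cyl s)

lemma Big.child {K s} (h : Big K s) : ∃ b, Big K (s ++ [b]) := by
  unfold Big at h
  rw [cyl_split s, inter_union_distrib_left, dimH_union, lt_max_iff] at h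
  rcases h with h | h
  exacts [⟨_, h⟩, ⟨_, h⟩]

lemma Big.split {K s} (h : Big K s) {p : ℕ} (hp : p < 2) :
    ∃ t, s <+: t ∧ t.length % 2 = p ∧ Big K (t ++ [false]) ∧ Big K (t ++ [true]) := by
  classical
  by_contra hn
  push Not at hn
  let σ : List Bool → Bool := fun t => if Big K (t ++ [true]) then true else false
  have hsub : K ∩ cyl s ⊆ Fol s.length p σ ∪ ⋃ t : {t // ¬ Big K t}, K ∩ cyl t := by
    intro x hx
    by_cases hb : ∀ n, Big K (pre x n)
    · left
      intro n hn1 hn2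
      have h1 := hb (n + 1)
      rw [pre_succ] at h1
      have h2 := hn (pre x n) ((mem_cyl_iff hn1).1 hx.2) (by simpa using hn2)
      simp only [σ]
      cases hxn : x n
      · rw [hxn] at h1; rw [if_neg (h2 h1)]
      · rw [hxn] at h1; rw [if_pos h1]
    · right
      push Not at hb
      obtain ⟨n, hn⟩ := hb
      exact mem_iUnion.2 ⟨⟨_, hn⟩, hx.1, mem_cyl_pre _ _⟩
  have := dimH_mono hsub
  rw [dimH_union, dimH_iUnion] at this
  refine absurd (h.trans_le this) (not_lt.2 (max_le (dimH_Fol _ _ _ hp) (iSup_le fun t => ?_)))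
  exact not_lt.1 t.2

lemma Big.mem {T s} (h : Big (canopy T) s) : s ∈ T := by
  have : (canopy T ∩ cyl s).Nonempty := by
    by_contra hn
    rw [not_nonempty_iff_eq_empty] at hn
    unfold Big at h
    rw [hn] at h
    simp at h
  obtain ⟨x, hx, hx'⟩ := this
  have h2 : pre x s.length = s := hx'
  rw [← h2]; exact hx _

lemma exists_move {T} (hT : IsSubtree T) : ∃ μ : List Bool → Bool, ∀ s ∈ T, s ++ [μ s] ∈ T := by
  have : ∀ s, ∃ b, s ∈ T → s ++ [b] ∈ T := by
    intro s
    by_cases hs : s ∈ T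
    · obtain ⟨t, ht, ⟨u, rfl⟩, hne⟩ := hT.extend s hs
      cases u with
      | nil => simp at hne
      | cons b u => exact ⟨b, fun _ => hT.closed _ ht _ ⟨u, by simp⟩⟩
    · exact ⟨false, fun h => absurd h hs⟩
  choose μ hμ using this
  exact ⟨μ, hμ⟩

lemma play_mem {T} (hT : IsSubtree T) {s} (hs : s ∈ T) {μ : List Bool → Bool}
    (hμ : ∀ t ∈ T, t ++ [μ t] ∈ T) {x : Seq} (hx : x ∈ cyl s)
    (h : ∀ n, s.length ≤ n → x n = μ (pre x n)) : x ∈ canopy T := by
  intro n
  have hx' : pre x s.length = s := hx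
  rcases le_total n s.length with hn | hn
  · exact hT.closed _ hs _ (hx' ▸ pre_prefix x hn)
  · induction hn with
    | refl => rwa [hx']
    | step hn ih => rw [pre_succ, h _ hn]; exact hμ _ ih

/-- consistency of a position with a strategy -/
def Cons (p : ℕ) (σ : List Bool → Bool) (s : List Bool) : Prop :=
  ∀ t b, t ++ [b] <+: s → t.length % 2 = p → b = σ t

lemma Cons.mono {p σ s t} (h : Cons p σ s) (ht : t <+: s) : Cons p σ t :=
  fun u b hu => h u b (hu.trans ht)

lemma Cons.snoc {p σ s} (h : Cons p σ s) {b : Bool} (hb : s.length % 2 = p → b = σ s) :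
    Cons p σ (s ++ [b]) := by
  intro t c ht hp
  rcases List.prefix_concat_iff.1 ht with h1 | h1
  · have := List.append_inj' h1 rfl
    obtain ⟨rfl, h2⟩ := this
    simp at h2
    rw [h2]; exact hb hp
  · exact h t c h1 hp

lemma Cons.apply {p σ} {x : Seq} {n N : ℕ} (h : Cons p σ (pre x N)) (hn : n < N)
    (hp : n % 2 = p) : x n = σ (pre x n) :=
  h _ _ (by rw [← pre_succ]; exact pre_prefix x hn) (by simpa using hp)

/-- Dichotomy: a strategy either leaves the scheme tree or allows continuum many plays in it. -/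
lemma dichotomy {e : List Bool → List Bool} (he : ∀ w b, e w ++ [b] <+: e (b :: w))
    (hpar : ∀ w, (e w).length % 2 = w.length % 2) {p : ℕ} (hp : p < 2) (σ : List Bool → Bool) :
    (∃ s, (∃ w, s <+: e w) ∧ Cons p σ s ∧ s.length % 2 = p ∧ ¬ ∃ w, s ++ [σ s] <+: e w) ∨
    𝔠 ≤ #{x : Seq | (∀ n, ∃ w, pre x n <+: e w) ∧ Follows p σ x} := by
  rw [or_iff_not_imp_left]
  intro hn
  let Q : List Bool → Prop := fun s => (∃ w, s <+: e w) ∧ Cons p σ s
  have hQ : ∀ s t, Q s → t <+: s → Q t := fun s t hs ht =>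
    ⟨hs.1.imp fun w hw => ht.trans hw, hs.2.mono ht⟩
  have hch : ∀ s, Q s → ∃ b, Q (s ++ [b]) := by
    intro s hs
    by_cases hsp : s.length % 2 = p
    · refine ⟨σ s, ?_, hs.2.snoc fun _ => rfl⟩
      by_contra h
      exact hn ⟨s, hs.1, hs.2, hsp, h⟩
    · obtain ⟨w, u, hu⟩ := hs.1
      have h1 : s ++ (u ++ [false]) <+: e (false :: w) := by
        rw [← List.append_assoc, hu]; exact he _ _
      cases u with
      | nil => exact ⟨false, ⟨_, by simpa using h1⟩, hs.2.snoc fun h => absurd h hsp⟩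
      | cons b u =>
        exact ⟨b, ⟨w, ⟨u, by simpa using hu⟩⟩, hs.2.snoc fun h => absurd h hsp⟩
  have hsp : ∀ (k : ℕ) s, Q s → ∃ t, s <+: t ∧ True ∧ Q (t ++ [false]) ∧ Q (t ++ [true]) := by
    intro _ s hs
    obtain ⟨M, hM⟩ := sch_pass he (2 * s.length + 1 + p)
    obtain ⟨x, hx, hxQ⟩ := exists_path Q s hs fun t _ ht => hch t ht
    have h1 := hxQ (s.length + M) (by omega)
    obtain ⟨w', hw'⟩ := h1.1
    obtain ⟨w, hw, hw2⟩ := hM _ w' hw' (by simp)
    have h2 : Q (e w) := hQ _ _ h1 hw2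
    have h3 : (e w).length % 2 ≠ p := by rw [hpar, hw]; omega
    refine ⟨e w, ?_, trivial, ⟨⟨_, he _ _⟩, h2.2.snoc fun h => absurd h h3⟩,
      ⟨⟨_, he _ _⟩, h2.2.snoc fun h => absurd h h3⟩⟩
    refine List.prefix_of_prefix_length_le ((mem_cyl_iff (by omega)).1 hx) hw2 ?_
    have := sch_len he w
    omega
  obtain ⟨e', he1, he2⟩ := exists_scheme Q (fun _ _ => True) []
    ⟨⟨[], List.nil_prefix⟩, fun t b h => by simp at h⟩ hsp
  refine sch_card he2 fun x hx => ?_
  have hall : ∀ n, Q (pre x n) := by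
    intro n
    obtain ⟨w, hw, hxw⟩ := hx n
    have h1 : pre x (e' w).length = e' w := hxw
    refine hQ _ _ (he1 w).2.1 (List.IsPrefix.trans ?_ (List.prefix_append _ _))
    rw [← h1]
    exact pre_prefix x (hw ▸ sch_len he2 w)
  exact ⟨fun n => (hall n).1, fun n hn => (hall (n + 1)).2.apply (by omega) hn⟩

theorem main (T : Set (List Bool)) (hT : IsSubtree T) (hd : 1 / 2 < dimH (canopy T))
    (δ : ℝ≥0∞) (h1 : 1 / 2 ≤ δ) (h2 : δ ≤ dimH (canopy T)) :
    ∃ W WI WII : Set Seq, W ⊆ canopy T ∧ WI ⊆ canopy T ∧ WII ⊆ canopy T ∧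
      dimH W = δ ∧ dimH WI = δ ∧ dimH WII = δ ∧
      (¬ WinsI T W ∧ ¬ WinsII T W) ∧ WinsI T WI ∧ WinsII T WII := by
  classical
  set K := canopy T with hK
  have hKc : IsClosed K := isClosed_prefixes (· ∈ T)
  obtain ⟨μ, hμ⟩ := exists_move hT
  obtain ⟨e, he1, he⟩ := exists_scheme (Big K) (fun k t => t.length % 2 = k % 2 ∧ 2 * k ≤ t.length)
    [] (by simpa [Big] using hd) (by
      intro k s hs
      obtain ⟨x, hx, hxQ⟩ := exists_path (Big K) s hs fun t _ ht => ht.child
      obtain ⟨t, ht, h3, h4⟩ := (hxQ (s.length + 2 * k) (by omega)).split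
        (Nat.mod_lt k (by norm_num))
      refine ⟨t, ((mem_cyl_iff (by omega)).1 hx).trans ht, ⟨h3, ?_⟩, h4⟩
      have := ht.length_le
      simp at this; omega)
  let In : List Bool → Prop := fun s => ∃ w, s <+: e w
  have hIn : ∀ s t, In s → t <+: s → In t := fun s t hs ht => hs.imp fun w hw => ht.trans hw
  have hInT : ∀ s, In s → s ∈ T := fun s ⟨w, hw⟩ =>
    hT.closed _ (he1 w).2.1.mem _ (hw.trans (List.prefix_append _ _))
  let Tp : Set Seq := {x | ∀ n, In (pre x n)}
  have hTp : dimH Tp ≤ 1 / 2 := by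
    refine dimH_le_half _ 1 (fun n => (allL n).image e)
      (fun n => Finset.card_image_le.trans (by simpa using allL_card n)) (fun n s hs => ?_)
      (fun n x hx => ?_)
    · obtain ⟨w, hw, rfl⟩ := Finset.mem_image.1 hs
      rw [← mem_allL.1 hw]; exact (he1 w).1.2
    · obtain ⟨M, hM⟩ := sch_pass he n
      obtain ⟨w', hw'⟩ := hx M
      obtain ⟨w, hw, hw2⟩ := hM _ w' hw' (by simp)
      exact ⟨_, Finset.mem_image_of_mem _ (mem_allL.2 hw),
        (mem_cyl_iff (by simpa using hw2.length_le)).2 hw2⟩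
  have hF : ∀ p < 2, dimH (⋃ k, Fol k p μ) ≤ 1 / 2 := fun p hp => by
    rw [dimH_iUnion]; exact iSup_le fun k => dimH_Fol k p μ hp
  obtain ⟨E, hE, hEd⟩ := exact_dim (Z := Tp ∪ ⋃ k, Fol k 1 μ) hKc
    (by rw [dimH_union]; exact max_le hTp (hF 1 (by norm_num))) hd h1 h2
  obtain ⟨B, hB⟩ := exists_bernstein (ι := ℕ × (List Bool → Bool))
    (fun i => {x : Seq | (∀ n, ∃ w, pre x n <+: e w) ∧ Follows i.1 i.2 x}) (by simp)
  let X : Set Seq := {x | ∃ n, n % 2 = 1 ∧ In (pre x n) ∧ ¬ In (pre x (n + 1)) ∧ x ∈ Fol (n + 1) 0 μ}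
  have hdim : ∀ A : Set Seq, dimH A ≤ 1 / 2 → dimH (A ∪ E) = δ := fun A hA => by
    rw [dimH_union, hEd]; exact max_eq_right (hA.trans h1)
  -- the play after an exit
  have hexit : ∀ p σ s, p < 2 → IsStrategy T p σ → In s → Cons p σ s → s.length % 2 = p →
      ∃ x ∈ K, Follows p σ x ∧ pre x s.length = s ∧ pre x (s.length + 1) = s ++ [σ s] ∧
        x ∈ Fol s.length (1 - p) μ := by
    intro p σ s hp hσ hs hc hsp
    obtain ⟨x, hx, hx2⟩ := exists_play s (fun t => if t.length % 2 = p then σ t else μ t)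
    have hx' : pre x s.length = s := hx
    refine ⟨x, play_mem hT (hInT s hs) (μ := fun t => if t.length % 2 = p then σ t else μ t)
      (fun t ht => ?_) hx hx2, fun n hn => ?_, hx', ?_,
      fun n hn hn2 => ?_⟩
    · show t ++ [if t.length % 2 = p then σ t else μ t] ∈ T
      split_ifs with h
      exacts [hσ t ht h, hμ t ht]
    · rcases lt_or_ge n s.length with h | h
      · exact Cons.apply (N := s.length) (by rw [hx']; exact hc) h hn
      · rw [hx2 n h, if_pos (by simpa using hn)]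
    · rw [pre_succ, hx2 _ le_rfl, hx', if_pos hsp]
    · rw [hx2 n hn, if_neg (by simp; omega)]
  refine ⟨((B ∩ Tp) ∪ (K ∩ X)) ∪ E, (K ∩ Fol 0 0 μ) ∪ E, E, ?_, ?_, fun x hx => (hE hx).1,
    hdim _ ?_, hdim _ ?_, hEd, ⟨?_, ?_⟩, ?_, ?_⟩
  · rintro x ((hx | hx) | hx)
    exacts [fun n => hInT _ (hx.2 n), hx.1, (hE hx).1]
  · rintro x (hx | hx)
    exacts [hx.1, (hE hx).1]
  · rw [dimH_union]
    refine max_le ((dimH_mono inter_subset_right).trans hTp)
      ((dimH_mono ?_).trans (hF 0 (by norm_num)))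
    rintro x ⟨-, n, -, -, -, hx⟩
    exact mem_iUnion.2 ⟨_, hx⟩
  · exact (dimH_mono inter_subset_right).trans (dimH_Fol _ _ _ (by norm_num))
  · rintro ⟨σ, hσ, hw⟩
    rcases dichotomy he (fun w => (he1 w).1.1) (p := 0) (by norm_num) σ with
      ⟨s, hs, hc, hsp, hno⟩ | hc
    · obtain ⟨x, hxK, hxF, hx1, hx2, hx3⟩ := hexit 0 σ s (by norm_num) hσ hs hc hsp
      rcases hw x hxK hxF with (hx | hx) | hx
      · exact hno (hx2 ▸ hx.2 (s.length + 1))
      · obtain ⟨-, n, hn1, hn2, hn3, -⟩ := hx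
        rcases lt_trichotomy n s.length with h | h | h
        · exact hn3 (hIn _ _ hs (hx1 ▸ pre_prefix x h))
        · omega
        · exact hno (hIn _ _ hn2 (hx2 ▸ pre_prefix x h))
      · exact (hE hx).2 (Or.inr (mem_iUnion.2 ⟨_, hx3⟩))
    · obtain ⟨x, hx, hxB⟩ := (hB (0, σ) hc).2
      rcases hw x (fun n => hInT _ (hx.1 n)) hx.2 with (hx' | hx') | hx'
      · exact hxB hx'.1
      · obtain ⟨-, n, -, -, hn3, -⟩ := hx'
        exact hn3 (hx.1 _)
      · exact (hE hx').2 (Or.inl hx.1)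
  · rintro ⟨σ, hσ, hw⟩
    rcases dichotomy he (fun w => (he1 w).1.1) (p := 1) (by norm_num) σ with
      ⟨s, hs, hc, hsp, hno⟩ | hc
    · obtain ⟨x, hxK, hxF, hx1, hx2, hx3⟩ := hexit 1 σ s (by norm_num) hσ hs hc hsp
      refine hw x hxK hxF (Or.inl (Or.inr ⟨hxK, s.length, hsp, hx1.symm ▸ hs, hx2.symm ▸ hno, ?_⟩))
      exact fun n hn => hx3 n (by omega)
    · obtain ⟨x, hx, hxB⟩ := (hB (1, σ) hc).1
      exact hw x (fun n => hInT _ (hx.1 n)) hx.2 (Or.inl (Or.inl ⟨hxB, hx.1⟩))
  · exact ⟨μ, fun s hs _ => hμ s hs, fun x hx hf => Or.inl ⟨hx, fun n _ hn => hf n hn⟩⟩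
  · exact ⟨μ, fun s hs _ => hμ s hs, fun x _ hf hx =>
      (hE hx).2 (Or.inr (mem_iUnion.2 ⟨0, fun n _ hn => hf n hn⟩))⟩

end Pool.Agent.H.DGame
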